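import Pool.Agent.Y609.FH.Main

/-!
# A frequently hypercyclic operator whose frequently hypercyclic vectors are the polynomials of one
# vector

Real or complex scalars. There are a separable infinite dimensional Fréchet space `X` (complete,
metrizable, the topology is given by countably many seminorms), an operator `T` on `X`, a vector
`x₀` and an open neighbourhood `U₀` of `0` such that

1. the frequently hypercyclic vectors of `T` are exactly the vectors `p (T) x₀` with a nonzero
   polynomial `p`. So these vectors and zero form a linear space of countable dimension, and the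
   set of frequently hypercyclic vectors is as small as it can be for any operator which has one;
2. even more, the vectors whose orbits visit the single set `U₀` with positive lower density are
   exactly the vectors `p (T) x₀`;
3. the operators which commute with `T` are exactly the polynomials `p (T)`;
4. zero is the only vector with a bounded orbit;
5. `T` has no frequently hypercyclic subspace: every closed infinite dimensional subspace contains
   a nonzero vector which is not frequently hypercyclic;
6. if `T ⊕ R` is frequently hypercyclic, for an operator `R` on any topological vector space `Y`,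
   then `J = 0` is the only operator from `Y` to `X` with `J R = T J`;
7. in particular, with `R = T` and `J = id`: `T` is frequently hypercyclic, `T ⊕ T` is not. This
   answers the question of Bayart and Grivaux.

The space and the operator are those of the starting result `DirectSum` (file
`Pool.Agent.Helper932.FHCMain`), where only 7 is stated, and without the seminorms. There it is
proved that a vector which visits `U₀` with positive lower density is `p (T) x₀` for a polynomial
`p`. The rest is new here. The converse in 1 needs that `p (T)` has dense range for nonzero `p`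
(`Pool.Agent.Y609.FH.denseRange_aeval`, for real and complex scalars: otherwise `T` would induce an
operator with a dense orbit on a nonzero finite dimensional quotient). For 3, if `R` commutes with
`T` then `R x₀` visits `U₀` as often as `x₀` visits the neighbourhood of `0` mapped to `U₀` by `R`;
so `R x₀ = p (T) x₀`, and `R = p (T)` on the orbit of `x₀`. For 5, Baire's theorem is used. For 6,
if `(x, y)` is frequently hypercyclic then `x = p (T) x₀` and `J y = q (T) x₀` and the orbit is in
the closed set of the `(u, v)` with `q (T) u = p (T) J v`, so `q = 0`.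
-/

set_option autoImplicit false

open Filter Topology Polynomial

namespace Pool.Agent.Results.MP_6cc614_an.PolynomialVectors

/-- The lower density `liminf_{N → ∞} #{n ≤ N : n ∈ A} / N` of a set of natural numbers. -/
noncomputable def lowerDensity (A : Set ℕ) : ℝ :=
  liminf (fun N : ℕ => ((A ∩ Set.Iic N).ncard : ℝ) / (N : ℝ)) atTop

/-- `x` is a frequently hypercyclic vector for `T`: for every nonempty open set `U` the set
`{n ≥ 0 : T^n x ∈ U}` has positive lower density. -/
def IsFHCVector {𝕜 : Type} [RCLike 𝕜] {X : Type} [AddCommGroup X] [Module 𝕜 X]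
    [TopologicalSpace X] (T : X →L[𝕜] X) (x : X) : Prop :=
  ∀ U : Set X, IsOpen U → U.Nonempty → 0 < lowerDensity {n : ℕ | (T ^ n) x ∈ U}

/-- `T` is frequently hypercyclic. -/
def IsFHC {𝕜 : Type} [RCLike 𝕜] {X : Type} [AddCommGroup X] [Module 𝕜 X]
    [TopologicalSpace X] (T : X →L[𝕜] X) : Prop := ∃ x : X, IsFHCVector T x

/-- There is a frequently hypercyclic operator `T` on a separable infinite dimensional Fréchet space
whose frequently hypercyclic vectors are exactly the vectors `p (T) x₀` with nonzero polynomials
`p`. Its commutant consists of the polynomials `p (T)`, it has no nonzero bounded orbits and no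
frequently hypercyclic subspace, and `T ⊕ R` is not frequently hypercyclic if there is a nonzero
operator `J` with `J R = T J`; in particular `T ⊕ T` is not frequently hypercyclic. -/
theorem result (𝕜 : Type) [RCLike 𝕜] :
    ∃ (X : Type) (_ : AddCommGroup X) (_ : Module 𝕜 X) (_ : UniformSpace X)
      (_ : IsUniformAddGroup X) (_ : ContinuousSMul 𝕜 X) (T : X →L[𝕜] X) (x₀ : X) (U₀ : Set X),
      CompleteSpace X ∧ TopologicalSpace.MetrizableSpace X ∧
      TopologicalSpace.SeparableSpace X ∧ ¬ FiniteDimensional 𝕜 X ∧
      (∃ (ι : Type) (_ : Countable ι) (q : SeminormFamily 𝕜 X ι), WithSeminorms q) ∧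
      IsOpen U₀ ∧ (0 : X) ∈ U₀ ∧
      -- the frequently hypercyclic vectors
      (∀ x : X, IsFHCVector T x ↔ ∃ p : 𝕜[X], p ≠ 0 ∧ x = (aeval T p : X →L[𝕜] X) x₀) ∧
      -- the vectors which visit `U₀` with positive lower density
      (∀ x : X, 0 < lowerDensity {n : ℕ | (T ^ n) x ∈ U₀} ↔
        ∃ p : 𝕜[X], x = (aeval T p : X →L[𝕜] X) x₀) ∧
      -- the commutant
      (∀ R : X →L[𝕜] X, R * T = T * R ↔ ∃ p : 𝕜[X], R = aeval T p) ∧
      -- no nonzero bounded orbit
      (∀ x : X, Bornology.IsVonNBounded 𝕜 (Set.range fun n : ℕ => (T ^ n) x) → x = 0) ∧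
      -- no frequently hypercyclic subspace
      (∀ M : Submodule 𝕜 X, IsClosed (M : Set X) → ¬ FiniteDimensional 𝕜 M →
        ∃ x ∈ M, x ≠ 0 ∧ ¬ IsFHCVector T x) ∧
      -- direct sums with other operators
      (∀ (Y : Type) [AddCommGroup Y] [Module 𝕜 Y] [TopologicalSpace Y] (R : Y →L[𝕜] Y),
        IsFHC (T.prodMap R) → ∀ J : Y →L[𝕜] X, (∀ y, J (R y) = T (J y)) → J = 0) ∧
      IsFHC T ∧ ¬ IsFHC (T.prodMap T) := by
  obtain ⟨A, hA, hLD, hM⟩ := Pool.Agent.Helper932.FHC.exists_slots
  obtain ⟨P, hP1, hP2, hP3⟩ := Pool.Agent.Helper932.FHC.exists_targets 𝕜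
  obtain ⟨ρ, h⟩ := Pool.Agent.Helper932.FHC.exists_sys A hA P hP1 hP2
  have hmin := Pool.Agent.Y609.FH.exists_min hA hLD hM hP3 h
  have hfd := Pool.Agent.Helper932.FHC.X_not_finiteDimensional hA h
  have huni := Pool.Agent.Helper932.FHC.X_uniformAddGroup ρ
  have hmet := Pool.Agent.Helper932.FHC.X_metrizable ρ
  have hntr : Nontrivial (Pool.Agent.Helper932.FHC.X ρ) := by
    by_contra hc
    rw [not_nontrivial_iff_subsingleton] at hc
    exact hfd inferInstance
  refine ⟨Pool.Agent.Helper932.FHC.X ρ, inferInstance, inferInstance, inferInstance, huni,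
    inferInstance, Pool.Agent.Helper932.FHC.T h, _, Pool.Agent.Y609.FH.U0 ρ, inferInstance, hmet,
    Pool.Agent.Helper932.FHC.X_separable ρ, hfd, Pool.Agent.Y609.FH.exists_seminorms ρ, hmin.op,
    hmin.zero, hmin.fhc_iff, hmin.vis_iff, hmin.comm_iff, hmin.bounded,
    fun M hMc hMfd => Pool.Agent.Y609.FH.no_subspace hmin M hMc hMfd, ?_, ⟨_, hmin.fhc⟩,
    hmin.not_prod⟩
  intro Y _ _ _ R hR J hJ
  exact hmin.disjoint R hR J hJ

end Pool.Agent.Results.MP_6cc614_an.PolynomialVectors
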